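import Pool.Agent.H.MP_70d5b9_an.B

set_option autoImplicit false
open Filter Topology Metric Set Complex

namespace Pool.Agent.Results.MP_70d5b9_an.Sigma

def Adm (α : ℝ) (f : ℂ → ℂ) (γ : ℝ → ℂ) (T : Finset ℝ) (φ : ℝ) : Prop :=
  DifferentiableOn ℂ f (ball 0 1) ∧ InjOn f (ball 0 1) ∧ f 0 = 0 ∧ deriv f 0 = 1 ∧
  ContinuousOn γ (Ici 0) ∧ InjOn γ (Ici 0) ∧ Tendsto (fun t => ‖γ t‖) atTop atTop ∧
  (f '' ball 0 1)ᶜ = γ '' Ici 0 ∧
  (∀ t, 0 < t → t ∉ T → AnalyticAt ℝ γ t ∧ deriv γ t ≠ 0 ∧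
    InnerProductGeometry.angle (deriv γ t) (γ t) ≤ α * Real.pi / 2) ∧
  ContinuousOn f (closedBall 0 1 \ {-1}) ∧
  Tendsto (fun z => ‖f z‖) (𝓝[ball 0 1] (-1)) atTop ∧
  φ ∈ Ioo (-Real.pi) Real.pi ∧
  ∀ ζ : ℂ, ‖ζ‖ = 1 → ζ ≠ -1 → (f ζ = γ 0 ↔ ζ = exp (φ * I))

open Pool.Agent.H.MP_70d5b9_an Pool.Agent.H.MP_5011cf_an in
theorem result : ∀ α : ℝ, 0 < α → α ≤ 1 →
    IsLUB {x | ∃ f γ T φ, Adm α f γ T φ ∧ x = |φ|} (α * Real.pi) ∧
    IsLUB {x | ∃ f γ φ, Adm α f γ ∅ φ ∧ (∀ t, AnalyticAt ℝ γ t ∧ deriv γ t ≠ 0) ∧ x = |φ|}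
      (α * Real.pi) := by
  intro α a0 a1
  have p0 := Real.pi_pos
  have up : ∀ f γ T φ, Adm α f γ T φ → |φ| ≤ α * Real.pi := by
    rintro f γ T φ ⟨h1, h2, h3, h4, h5, -, h6, h7, h8, h9, h10, h11, h12⟩
    have hφ := abs_lt.mpr h11
    rcases a1.eq_or_lt with rfl | a2
    · linarith
    have := upper (β := α * Real.pi / 2) (by positivity) (by nlinarith) h1 h9 h2 h3 h4 h5 h6
      (fun t t0 ht => ⟨_, (h8 t t0 ht).2.1, (h8 t t0 ht).1.differentiableAt.hasDerivAt,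
        (h8 t t0 ht).2.2⟩) h7 h10 hφ ((h12 _ (ex_norm φ) (ex_KK hφ).2).mpr rfl)
      fun ζ hζ z1 => (h12 ζ z1 hζ.2).mp
    linarith
  have lo : ∀ β, 0 ≤ β → β < α * Real.pi / 2 → ∃ f γ φ, Adm α f γ ∅ φ ∧
      (∀ t, AnalyticAt ℝ γ t ∧ deriv γ t ≠ 0) ∧ 2 * β = |φ| := fun β b0 b2 => by
    have b1 : β < Real.pi / 2 := by nlinarith
    have c0 := Real.cos_pos_of_mem_Ioo (x := β) ⟨by linarith, b1⟩
    have t0 : |-(2 * β)| < Real.pi := abs_lt.mpr ⟨by linarith, by linarith⟩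
    set x := mm β (-(2 * β))
    have d : ∀ t : ℝ, HasDerivAt (fun t : ℝ => exp (ee β * (x + t : ℝ)))
        (exp (ee β * (x + t : ℝ)) * ee β) t := fun t => by
      simpa using ((((hasDerivAt_id (t : ℂ)).const_add (x : ℂ)).const_mul (ee β)).cexp).comp_ofReal
    have an : ∀ t : ℝ, AnalyticAt ℝ (fun t : ℝ => exp (ee β * (x + t : ℝ))) t ∧
        deriv (fun t : ℝ => exp (ee β * (x + t : ℝ))) t ≠ 0 := fun t =>
      ⟨(analyticAt_cexp.restrictScalars).comp (analyticAt_const.mul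
        ((ofRealCLM.analyticAt _).comp (analyticAt_const.add analyticAt_id))),
        (d t).deriv ▸ mul_ne_zero (exp_ne_zero _) (ee0 β)⟩
    have ij : ∀ s t : ℝ, exp (ee β * s) = exp (ee β * t) → s = t := fun s t e => by
      have := congrArg norm e
      rwa [ne_norm, ne_norm, Real.exp_eq_exp, mul_right_inj' c0.ne'] at this
    refine ⟨sp β, _, -(2 * β), ⟨fun z hz =>
      (sp_der β (ball_KK hz)).differentiableAt.differentiableWithinAt, sp_inj c0, by simp [sp],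
      by simpa using (sp_der β (ball_KK (mem_ball_self one_pos))).deriv,
      fun t _ => (d t).continuousAt.continuousWithinAt, fun s _ t _ e => add_left_cancel (ij _ _ e),
      ?_, sp_img b0 b1, fun t _ _ => ⟨(an t).1, (an t).2, ?_⟩, sp_cont β,
      (sp_inf c0).mono_left (nhdsWithin_mono _ ball_KK), abs_lt.mp t0, fun ζ z1 z2 => ?_⟩, an,
      by rw [abs_neg, abs_of_nonneg (by linarith)]⟩
    · simp only [ne_norm]
      exact Real.tendsto_exp_atTop.comp ((tendsto_atTop_add_const_left _ x tendsto_id).const_mul_atTop c0)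
    · rw [(d t).deriv, angle_eq_abs_arg (mul_ne_zero (exp_ne_zero _) (ee0 β)) (exp_ne_zero _),
        mul_div_cancel_left₀ _ (exp_ne_zero _), ee, arg_exp_mul_I,
        (toIocMod_eq_self _).mpr ⟨by linarith, by linarith⟩, abs_of_nonneg b0]
      exact b2.le
    · obtain ⟨q1, q2⟩ := KK_ex ⟨mem_closedBall_zero_iff.mpr z1.le, z2⟩ z1
      simp only [add_zero]
      refine ⟨fun e => ?_, fun e => e ▸ sp_b β t0⟩
      rw [← q2, sp_b β q1] at e
      rw [← q2, ((mm_min b0 b1 q1).mt (not_lt.mpr (ij _ _ e).le) |> not_not.mp), ex]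
  have lb : ∀ b, (∀ β, 0 ≤ β → β < α * Real.pi / 2 → 2 * β ≤ b) → α * Real.pi ≤ b := fun b h =>
    le_of_forall_lt_imp_le_of_dense fun c hc => by
      rcases le_total c 0 with l | l
      · linarith [h 0 le_rfl (by positivity)]
      · linarith [h (c / 2) (by linarith) (by linarith)]
  refine ⟨⟨?_, fun b hb => lb b fun β b0 b1 => ?_⟩, ?_, fun b hb => lb b fun β b0 b1 =>
    hb (lo β b0 b1)⟩
  · rintro _ ⟨f, γ, T, φ, h, rfl⟩
    exact up f γ T φ h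
  · obtain ⟨f, γ, φ, h, -, e⟩ := lo β b0 b1
    exact hb ⟨f, γ, ∅, φ, h, e⟩
  · rintro _ ⟨f, γ, φ, h, -, rfl⟩
    exact up f γ ∅ φ h

end Pool.Agent.Results.MP_70d5b9_an.Sigma
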